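import Pool.Agent.T9h63.KT.Count
import Pool.Agent.T9h63.CU.Cyclo

set_option autoImplicit false
set_option maxHeartbeats 1000000

/-!
The number of the roots `z` of an integral polynomial such that `q z` is a root of unity, for any `q`
prime to `ℓ`.
-/

namespace Pool.Agent.T9h63.LG

open Polynomial Pool.Agent.T9h63.KT

section red

variable {F : Type*} [Field F] (c : F)

lemma reverse_X_sub_C : (X - C c : F[X]).reverse = 1 - C c * X := by
  have h := reverse_add_C (X : F[X]) (-c : F)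
  have h2 : (X : F[X]).reverse = 1 := by
    have h3 := reverse_mul_X (1 : F[X])
    rw [one_mul] at h3
    rw [h3, ← C_1, reverse_C]
  rw [h2, natDegree_X, pow_one, map_neg] at h
  rw [sub_eq_add_neg, h]
  ring

lemma reflect_powC (n : ℕ) : reflect n ((X - C c : F[X]) ^ n) = (1 - C c * X) ^ n := by
  have h1 : ((X - C c : F[X]) ^ n).natDegree = n := by
    rw [natDegree_pow, natDegree_X_sub_C, mul_one]
  have h2 : ((X - C c : F[X]) ^ n).reverse = (1 - C c * X) ^ n := by
    clear h1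
    induction n with
    | zero => rw [pow_zero, pow_zero, ← C_1, reverse_C]
    | succ n ih => rw [pow_succ, reverse_mul_of_domain, ih, reverse_X_sub_C, pow_succ]
  rw [← h2, reverse, h1]

lemma mult_one_subC (hc : c ≠ 0) (n : ℕ) : rootMultiplicity c⁻¹ ((1 - C c * X : F[X]) ^ n) = n := by
  have : (1 - C c * X : F[X]) ^ n = C ((-c) ^ n) * (X - C c⁻¹) ^ n := by
    rw [map_pow, ← mul_pow]
    congr 1
    rw [map_neg, neg_mul, mul_sub, ← C_mul, mul_inv_cancel₀ hc, C_1]
    ring
  rw [this]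
  have hne : (C ((-c) ^ n) * (X - C c⁻¹) ^ n : F[X]) ≠ 0 := by
    apply mul_ne_zero
    · rw [Ne, C_eq_zero]
      exact pow_ne_zero _ (neg_ne_zero.2 hc)
    · exact pow_ne_zero _ (X_sub_C_ne_zero _)
  rw [rootMultiplicity_mul hne, rootMultiplicity_C, zero_add, rootMultiplicity_X_sub_C_pow]

end red

variable {l : ℕ} [hl : Fact l.Prime] {q : ℕ}

/-- the reduction of the minimal polynomial -/
lemma min_redC {α : ℂ} {b : ℕ} (hα : α ^ l ^ b = (q : ℂ) ^ (l ^ b)) :
    IsIntegral ℤ α ∧ (minpoly ℤ α).map (Int.castRingHom (ZMod l))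
      = (X - C (q : ZMod l)) ^ (minpoly ℤ α).natDegree := by
  set L := l ^ b with hL
  have hLpos : 0 < L := pow_pos hl.out.pos b
  have hmono : (X ^ L - C ((q : ℤ) ^ L) : ℤ[X]).Monic := monic_X_pow_sub_C _ hLpos.ne'
  have hroot : aeval α (X ^ L - C ((q : ℤ) ^ L) : ℤ[X]) = 0 := by
    simp [hα]
  have hint : IsIntegral ℤ α := ⟨_, hmono, hroot⟩
  have d2 : minpoly ℤ α ∣ (X ^ L - C ((q : ℤ) ^ L) : ℤ[X]) :=
    minpoly.isIntegrallyClosed_dvd hint hroot
  refine ⟨hint, ?_⟩
  have hm := minpoly.monic hint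
  have d3 : (minpoly ℤ α).map (Int.castRingHom (ZMod l)) ∣ (X - C (q : ZMod l)) ^ L := by
    have := Polynomial.map_dvd (Int.castRingHom (ZMod l)) d2
    have e : (X ^ L - C ((q : ℤ) ^ L) : ℤ[X]).map (Int.castRingHom (ZMod l))
        = (X - C (q : ZMod l)) ^ L := by
      have h1 : (Int.castRingHom (ZMod l)) ((q : ℤ) ^ l ^ b) = (q : ZMod l) := by
        rw [map_pow, eq_intCast, Int.cast_natCast, ZMod.pow_card_pow]
      rw [hL, sub_pow_char_pow, ← C_pow, ZMod.pow_card_pow, Polynomial.map_sub,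
        Polynomial.map_pow, map_X, map_C, h1]
    rwa [e] at this
  obtain ⟨i, _, hi⟩ := (dvd_prime_pow (prime_X_sub_C (q : ZMod l)) L).1 d3
  have hmm : ((minpoly ℤ α).map (Int.castRingHom (ZMod l))).Monic := hm.map _
  have hmi : ((X - C (q : ZMod l) : (ZMod l)[X]) ^ i).Monic := (monic_X_sub_C _).pow i
  have h1 := eq_of_monic_of_associated hmm hmi hi
  have h2 : i = (minpoly ℤ α).natDegree := by
    rw [← hm.natDegree_map (Int.castRingHom (ZMod l)), h1, natDegree_pow, natDegree_X_sub_C,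
      mul_one]
  rw [h1, h2]

open Classical in
/-- the number of these roots is bounded by the multiplicity of the root `1 / q` modulo `ℓ` -/
theorem count_leC (hq : (q : ZMod l) ≠ 0) : ∀ (n : ℕ) (R : ℤ[X]), R.coeff 0 = 1 →
    R.natDegree ≤ n → Multiset.card ((R.map (Int.castRingHom ℂ)).roots.filter
      fun z => ∃ b : ℕ, (z * (q : ℂ)) ^ l ^ b = 1) ≤
      rootMultiplicity (q : ZMod l)⁻¹ (R.map (Int.castRingHom (ZMod l))) := by
  intro n
  induction n with
  | zero =>
    intro R hR0 hdeg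
    have : R = C 1 := by
      rw [eq_C_of_natDegree_eq_zero (Nat.le_zero.1 hdeg), hR0]
    rw [this]
    simp
  | succ n ih =>
    intro R hR0 hdeg
    by_cases hemp : (R.map (Int.castRingHom ℂ)).roots.filter
        (fun z => ∃ b : ℕ, (z * (q : ℂ)) ^ l ^ b = 1) = 0
    · rw [hemp]; simp
    obtain ⟨z, hz⟩ := Multiset.exists_mem_of_ne_zero hemp
    rw [Multiset.mem_filter] at hz
    obtain ⟨hz1, b, hzb⟩ := hz
    have hRC : R.map (Int.castRingHom ℂ) ≠ 0 := by
      intro h
      have := congrArg (fun P : ℂ[X] => P.coeff 0) h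
      simp [coeff_map, hR0] at this
    have hRz : (R.map (Int.castRingHom ℂ)).eval z = 0 := (mem_roots hRC).1 hz1
    have hz0 : z ≠ 0 := by
      rintro rfl
      rw [← coeff_zero_eq_eval_zero, coeff_map, hR0] at hRz
      simp at hRz
    have hαL : (z⁻¹) ^ l ^ b = (q : ℂ) ^ (l ^ b) := by
      rw [mul_pow] at hzb
      rw [inv_pow]
      exact (eq_inv_of_mul_eq_one_right hzb).symm
    obtain ⟨hint, hred⟩ := min_redC hαL
    set μ := minpoly ℤ z⁻¹ with hμ
    have hm : μ.Monic := minpoly.monic hint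
    letI := invertibleOfNonzero hz0
    have hR1 : aeval z⁻¹ R.reverse = 0 := by
      have h1 : eval₂ (Int.castRingHom ℂ) z R = 0 := by rwa [← eval_map]
      have h2 := (eval₂_reverse_eq_zero_iff (Int.castRingHom ℂ) z R).2 h1
      rw [invOf_eq_inv] at h2
      rw [aeval_def]
      exact h2
    have d1 : μ ∣ R.reverse := minpoly.isIntegrallyClosed_dvd hint hR1
    obtain ⟨ν, hν⟩ := d1
    have hfac : R = μ.reverse * ν.reverse := by
      rw [← reverse_mul_of_domain, ← hν, rev_rev hR0]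
    set g := μ.reverse with hg
    set R' := ν.reverse with hR'
    have hg0 : g.coeff 0 = 1 := by rw [hg, coeff_zero_reverse, hm.leadingCoeff]
    have hR'0 : R'.coeff 0 = 1 := by
      have h1 := congrArg (fun P : ℤ[X] => P.coeff 0) hfac
      simp only [mul_coeff_zero, hg0, one_mul, hR0] at h1
      exact h1.symm
    have hgz : (g.map (Int.castRingHom ℂ)).eval z = 0 := by
      have h2 : eval₂ (Int.castRingHom ℂ) (z⁻¹) μ = 0 := by
        have := minpoly.aeval ℤ z⁻¹
        rwa [aeval_def] at this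
      letI := invertibleOfNonzero (inv_ne_zero hz0)
      have h3 := (eval₂_reverse_eq_zero_iff (Int.castRingHom ℂ) (z⁻¹) μ).2 h2
      rw [invOf_eq_inv, inv_inv] at h3
      rw [eval_map]
      exact h3
    have hgdeg : 0 < g.natDegree := by
      by_contra h
      have h1 : g = C 1 := by
        rw [eq_C_of_natDegree_eq_zero (show g.natDegree = 0 by omega), hg0]
      rw [h1] at hgz
      simp at hgz
    have hg' : g ≠ 0 := by
      intro h; rw [h] at hg0; simp at hg0
    have hR'' : R' ≠ 0 := by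
      intro h; rw [h] at hR'0; simp at hR'0
    have hdeg2 : R.natDegree = g.natDegree + R'.natDegree := by
      rw [hfac, natDegree_mul hg' hR'']
    have ih' := ih R' hR'0 (by omega)
    have hgbar : g.map (Int.castRingHom (ZMod l)) = (1 - C (q : ZMod l) * X) ^ μ.natDegree := by
      rw [hg, reverse, ← reflect_map, hred, reflect_powC]
    have hgC : g.map (Int.castRingHom ℂ) * R'.map (Int.castRingHom ℂ) ≠ 0 := by
      rw [← Polynomial.map_mul, ← hfac]; exact hRC
    have hRbar : g.map (Int.castRingHom (ZMod l)) * R'.map (Int.castRingHom (ZMod l)) ≠ 0 := by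
      rw [← Polynomial.map_mul, ← hfac]
      intro h
      have := congrArg (fun P : (ZMod l)[X] => P.coeff 0) h
      simp [coeff_map, hR0] at this
    rw [hfac, Polynomial.map_mul, Polynomial.map_mul, roots_mul hgC, rootMultiplicity_mul hRbar,
      Multiset.filter_add, Multiset.card_add, hgbar, mult_one_subC _ hq]
    apply Nat.add_le_add _ ih'
    calc Multiset.card ((g.map (Int.castRingHom ℂ)).roots.filter
          fun z => ∃ b : ℕ, (z * (q : ℂ)) ^ l ^ b = 1)
        ≤ Multiset.card (g.map (Int.castRingHom ℂ)).roots :=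
          Multiset.card_le_card (Multiset.filter_le _ _)
      _ ≤ (g.map (Int.castRingHom ℂ)).natDegree := card_roots' _
      _ ≤ g.natDegree := natDegree_map_le
      _ ≤ μ.natDegree := reverse_natDegree_le μ

omit hl in
lemma scale_comp (S : ℤ[X]) (q : ℕ) :
    (scaleRoots S (q : ℤ)).comp (C (q : ℤ) * X) = C ((q : ℤ) ^ S.natDegree) * S := by
  ext i
  rw [comp_C_mul_X_coeff, coeff_scaleRoots, coeff_C_mul]
  by_cases hi : i ≤ S.natDegree
  · rw [mul_assoc, ← pow_add, Nat.sub_add_cancel hi, mul_comm]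
  · rw [coeff_eq_zero_of_natDegree_lt (by omega)]
    ring

/-- the cyclotomic criterion -/
theorem cyc_critC (hq : (q : ZMod l) ≠ 0) {S L : ℤ[X]} {e : ℕ}
    (hS : S.map (Int.castRingHom (ZMod l)) ∣ L.map (Int.castRingHom (ZMod l)) ^ e)
    {z : ℂ} (hz : (S.map (Int.castRingHom ℂ)).eval z = 0) {N : ℕ} (hN : 0 < N)
    (hL : ∀ n : ℕ, n ∣ N → 1 < n → ¬ l ∣ n →
      ¬ (cyclotomic n (ZMod l)).comp (C (q : ZMod l) * X) ∣ L.map (Int.castRingHom (ZMod l)))
    (h : (z * (q : ℂ)) ^ N = 1) : ∃ b : ℕ, (z * (q : ℂ)) ^ l ^ b = 1 := by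
  set w := z * (q : ℂ) with hw
  have hfin : IsOfFinOrder w := isOfFinOrder_iff_pow_eq_one.2 ⟨N, hN, h⟩
  have hM : 0 < orderOf w := hfin.orderOf_pos
  have hprim : IsPrimitiveRoot w (orderOf w) := IsPrimitiveRoot.orderOf w
  have h1 : aeval w (scaleRoots S (q : ℤ)) = 0 := by
    have h0 : eval₂ (Int.castRingHom ℂ) z S = 0 := by rwa [eval_map] at hz
    have h2 := scaleRoots_eval₂_eq_zero (s := (q : ℤ)) (Int.castRingHom ℂ) h0
    have h3 : (Int.castRingHom ℂ) (q : ℤ) * z = w := by
      rw [hw, eq_intCast]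
      push_cast
      ring
    rw [h3] at h2
    exact h2
  have h2 : cyclotomic (orderOf w) ℤ ∣ scaleRoots S (q : ℤ) := by
    rw [cyclotomic_eq_minpoly hprim hM]
    exact minpoly.isIntegrallyClosed_dvd (hprim.isIntegral hM) h1
  set T := (scaleRoots S (q : ℤ)).map (Int.castRingHom (ZMod l)) with hT
  have h3 : cyclotomic (orderOf w) (ZMod l) ∣ T := by
    have h4 := Polynomial.map_dvd (Int.castRingHom (ZMod l)) h2
    rwa [map_cyclotomic] at h4
  obtain ⟨b, n, hn, hbn⟩ := Nat.exists_eq_pow_mul_and_not_dvd hM.ne' l hl.out.ne_one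
  have hnN : n ∣ N := (Dvd.intro_left _ hbn.symm).trans (orderOf_dvd_of_pow_eq_one h)
  by_cases hn1 : n = 1
  · refine ⟨b, ?_⟩
    have h4 := pow_orderOf_eq_one w
    rwa [hbn, hn1, mul_one] at h4
  exfalso
  have hn0 : 0 < n := Nat.pos_of_ne_zero fun h0 => by
    rw [h0] at hn
    exact hn (dvd_zero l)
  have hn2 : 1 < n := by omega
  have h5 : cyclotomic n (ZMod l) ∣ T := by
    rcases Nat.eq_zero_or_pos b with hb | hb
    · rw [hb, pow_zero, one_mul] at hbn
      rwa [hbn] at h3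
    · have h5 := cyclotomic_mul_prime_pow_eq (ZMod l) hn hb
      rw [hbn, h5] at h3
      refine (dvd_pow_self _ ?_).trans h3
      have h6 : l ^ (b - 1) < l ^ b := Nat.pow_lt_pow_right hl.out.one_lt (by omega)
      omega
  haveI : NeZero (n : ZMod l) := ⟨fun h0 => hn ((ZMod.natCast_eq_zero_iff n l).1 h0)⟩
  have hsq : Squarefree (cyclotomic n (ZMod l)) := squarefree_cyclotomic n (ZMod l)
  -- `T (q X) = q ^ D S`
  set c : ZMod l := (q : ZMod l) with hc
  have hcomp : T.comp (C c * X) = C (c ^ S.natDegree) * S.map (Int.castRingHom (ZMod l)) := by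
    have h6 := congrArg (Polynomial.map (Int.castRingHom (ZMod l))) (scale_comp S q)
    rw [Polynomial.map_comp, Polynomial.map_mul, Polynomial.map_mul, map_C, map_C, map_X] at h6
    rw [hT, hc]
    simpa using h6
  have hinv : ∀ f : (ZMod l)[X], (f.comp (C c * X)).comp (C c⁻¹ * X) = f := by
    intro f
    rw [comp_assoc, mul_comp, C_comp, X_comp, ← mul_assoc, ← C_mul, mul_inv_cancel₀ hq, C_1,
      one_mul, comp_X]
  have hinv' : ∀ f : (ZMod l)[X], (f.comp (C c⁻¹ * X)).comp (C c * X) = f := by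
    intro f
    rw [comp_assoc, mul_comp, C_comp, X_comp, ← mul_assoc, ← C_mul, inv_mul_cancel₀ hq, C_1,
      one_mul, comp_X]
  have hdvd : ∀ {f g : (ZMod l)[X]} (r : (ZMod l)[X]), f ∣ g → f.comp r ∣ g.comp r := by
    rintro f g r ⟨u, rfl⟩
    rw [mul_comp]
    exact dvd_mul_right _ _
  have h6 : T = C (c ^ S.natDegree) * (S.map (Int.castRingHom (ZMod l))).comp (C c⁻¹ * X) := by
    rw [← hinv T, hcomp, mul_comp, C_comp]
  have h7 : cyclotomic n (ZMod l) ∣ (L.map (Int.castRingHom (ZMod l))).comp (C c⁻¹ * X) ^ e := by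
    rw [h6] at h5
    have hu : IsUnit (C (c ^ S.natDegree) : (ZMod l)[X]) :=
      isUnit_C.2 (pow_ne_zero _ hq).isUnit
    have h8 := (hu.dvd_mul_left).1 h5
    refine h8.trans ?_
    rw [← pow_comp]
    exact hdvd _ hS
  rcases Nat.eq_zero_or_pos e with he | he
  · rw [he, pow_zero] at h7
    have h8 := isUnit_of_dvd_one h7
    have h4 := natDegree_eq_zero_of_isUnit h8
    rw [natDegree_cyclotomic] at h4
    exact (Nat.totient_pos.2 hn0).ne' h4
  · have h8 := (hsq.dvd_pow_iff_dvd he.ne').1 h7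
    have h9 := hdvd (C c * X) h8
    rw [hinv'] at h9
    exact hL n hnN hn2 hn h9

open Classical in
/-- the number of the roots `z` such that `(q z) ^ N = 1` -/
theorem card_leC (hq : (q : ZMod l) ≠ 0) {S L : ℤ[X]} {e : ℕ} (hS0 : S.coeff 0 = 1)
    (hS : S.map (Int.castRingHom (ZMod l)) ∣ L.map (Int.castRingHom (ZMod l)) ^ e)
    {N : ℕ} (hN : 0 < N)
    (hL : ∀ n : ℕ, n ∣ N → 1 < n → ¬ l ∣ n →
      ¬ (cyclotomic n (ZMod l)).comp (C (q : ZMod l) * X) ∣ L.map (Int.castRingHom (ZMod l))) :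
    Multiset.card ((S.map (Int.castRingHom ℂ)).roots.filter
      fun z => (z * (q : ℂ)) ^ N = 1) ≤
      rootMultiplicity (q : ZMod l)⁻¹ (S.map (Int.castRingHom (ZMod l))) := by
  refine le_trans ?_ (count_leC hq S.natDegree S hS0 le_rfl)
  have hS' : S.map (Int.castRingHom ℂ) ≠ 0 := by
    intro h
    have := congrArg (fun P : ℂ[X] => P.coeff 0) h
    simp [coeff_map, hS0] at this
  have h1 : (S.map (Int.castRingHom ℂ)).roots.filter (fun z => (z * (q : ℂ)) ^ N = 1)
      ≤ (S.map (Int.castRingHom ℂ)).roots.filter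
        (fun z => ∃ b : ℕ, (z * (q : ℂ)) ^ l ^ b = 1) := by
    rw [Multiset.le_filter]
    refine ⟨Multiset.filter_le _ _, fun z hz => ?_⟩
    rw [Multiset.mem_filter] at hz
    exact cyc_critC hq hS ((mem_roots hS').1 hz.1) hN hL hz.2
  exact Multiset.card_le_card h1

end Pool.Agent.T9h63.LG
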