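import Pool.Agent.T9h63.LG.Main
import Pool.Agent.T9h63.LG.Count

set_option autoImplicit false
set_option maxHeartbeats 1000000

/-!
Lemmas for the final form of the theorem on Galois coverings of the base of a fibration.
-/

namespace Pool.Agent.T9h63.LG

open Function Polynomial Pool.Agent.W555.TC Pool.Agent.T9h63.KT Pool.Agent.T9h63.SC

lemma nrm_unique {K : Type*} [Field K] {r : ℕ} {v v' : Fin (r + 1) → K} (hv : Nrm v)
    (hv' : Nrm v') {t t' : K} (ht : t ≠ 0) (ht' : t' ≠ 0) (h : ∀ i, t * v i = t' * v' i) :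
    v = v' := by
  obtain ⟨i, hi, hi0⟩ := hv
  obtain ⟨j, hj, hj0⟩ := hv'
  rcases lt_trichotomy i j with hij | hij | hij
  · exfalso
    have h1 := h i
    rw [hi, hj0 i hij, mul_one, mul_zero] at h1
    exact ht h1
  · subst hij
    have h1 := h i
    rw [hi, hj, mul_one, mul_one] at h1
    funext m
    have h2 := h m
    rw [h1] at h2
    exact mul_left_cancel₀ ht' h2
  · exfalso
    have h1 := h j
    rw [hj, hi0 j hij, mul_one, mul_zero] at h1
    exact ht' h1.symm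

section mult

variable {F : Type*} [Field F] (c : F)

lemma rm_pow {f : F[X]} (hf : f ≠ 0) (n : ℕ) :
    rootMultiplicity c (f ^ n) = n * rootMultiplicity c f := by
  induction n with
  | zero =>
    rw [pow_zero, zero_mul, ← C_1, rootMultiplicity_C]
  | succ n ih =>
    rw [pow_succ, rootMultiplicity_mul (mul_ne_zero (pow_ne_zero _ hf) hf), ih]
    ring

lemma rm_prod {ι : Type*} (S : Finset ι) (f : ι → F[X]) (h : ∀ i ∈ S, f i ≠ 0) :
    rootMultiplicity c (∏ i ∈ S, f i) = ∑ i ∈ S, rootMultiplicity c (f i) := by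
  classical
  induction S using Finset.induction_on with
  | empty => rw [Finset.prod_empty, Finset.sum_empty, ← C_1, rootMultiplicity_C]
  | insert i S hi ih =>
    have h1 : ∀ j ∈ S, f j ≠ 0 := fun j hj => h j (Finset.mem_insert_of_mem hj)
    rw [Finset.prod_insert hi, Finset.sum_insert hi, rootMultiplicity_mul
      (mul_ne_zero (h i (Finset.mem_insert_self i S)) (Finset.prod_ne_zero_iff.2 h1)), ih h1]

end mult

variable {l : ℕ} [hl : Fact l.Prime] {q : ℕ}

lemma map_ne {P : ℤ[X]} (h : P.coeff 0 = 1) : P.map (Int.castRingHom (ZMod l)) ≠ 0 := by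
  intro h0
  have := congrArg (fun P : (ZMod l)[X] => P.coeff 0) h0
  simp [coeff_map, h] at this

lemma dvd_value (hq : (q : ZMod l) ≠ 0) (P : ℤ[X]) :
    (l : ℤ) ∣ P.reverse.eval (q : ℤ) ↔
      (P.map (Int.castRingHom (ZMod l))).eval (q : ZMod l)⁻¹ = 0 := by
  letI := invertibleOfNonzero (inv_ne_zero hq)
  have h1 := eval₂_reverse_mul_pow (Int.castRingHom (ZMod l)) (q : ZMod l)⁻¹ P
  rw [invOf_eq_inv, inv_inv] at h1
  have h2 : eval₂ (Int.castRingHom (ZMod l)) (q : ZMod l) P.reverse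
      = ((P.reverse.eval (q : ℤ) : ℤ) : ZMod l) := by
    have h3 := eval₂_at_apply (Int.castRingHom (ZMod l)) (p := P.reverse) (q : ℤ)
    simpa using h3
  rw [eval_map, ← h1, h2, mul_eq_zero, or_iff_left (pow_ne_zero _ (inv_ne_zero hq)),
    ZMod.intCast_zmod_eq_zero_iff_dvd]

/-- the multiplicities -/
theorem mult_eq {a : ℕ} {L L' : ℤ[X]} {A : ℕ → ℤ[X]} (hL : L.coeff 0 = 1)
    (hA : ∀ j, 1 ≤ j → j ≤ a → (A j).coeff 0 = 1) (c : ZMod l)
    (h : L'.map (Int.castRingHom (ZMod l)) = L.map (Int.castRingHom (ZMod l)) ^ (l ^ a) *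
      ∏ j ∈ Finset.Icc 1 a, (A j).map (Int.castRingHom (ZMod l)) ^ (l ^ a - l ^ (a - j))) :
    (L'.map (Int.castRingHom (ZMod l))).rootMultiplicity c =
      l ^ a * (L.map (Int.castRingHom (ZMod l))).rootMultiplicity c +
      ∑ j ∈ Finset.Icc 1 a, (l ^ a - l ^ (a - j)) *
        ((A j).map (Int.castRingHom (ZMod l))).rootMultiplicity c := by
  have h1 : ∀ j ∈ Finset.Icc 1 a, (A j).map (Int.castRingHom (ZMod l)) ≠ 0 := by
    intro j hj
    obtain ⟨hj1, hj2⟩ := Finset.mem_Icc.1 hj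
    exact map_ne (hA j hj1 hj2)
  have h2 : ∀ j ∈ Finset.Icc 1 a,
      (A j).map (Int.castRingHom (ZMod l)) ^ (l ^ a - l ^ (a - j)) ≠ 0 :=
    fun j hj => pow_ne_zero _ (h1 j hj)
  rw [h, rootMultiplicity_mul (mul_ne_zero (pow_ne_zero _ (map_ne hL))
    (Finset.prod_ne_zero_iff.2 h2)), rm_pow c (map_ne hL), rm_prod c _ _ h2]
  congr 1
  apply Finset.sum_congr rfl
  intro j hj
  exact rm_pow c (h1 j hj) _

/-- the zeros -/
theorem zero_iff {a : ℕ} {L L' : ℤ[X]} {A : ℕ → ℤ[X]} (c : ZMod l)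
    (h : L'.map (Int.castRingHom (ZMod l)) = L.map (Int.castRingHom (ZMod l)) ^ (l ^ a) *
      ∏ j ∈ Finset.Icc 1 a, (A j).map (Int.castRingHom (ZMod l)) ^ (l ^ a - l ^ (a - j))) :
    (L'.map (Int.castRingHom (ZMod l))).eval c = 0 ↔
      (L.map (Int.castRingHom (ZMod l))).eval c = 0 ∨
      ∃ j ∈ Finset.Icc 1 a, ((A j).map (Int.castRingHom (ZMod l))).eval c = 0 := by
  rw [h, eval_mul, eval_pow, eval_prod, mul_eq_zero,
    pow_eq_zero_iff (pow_ne_zero a hl.out.ne_zero), Finset.prod_eq_zero_iff]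
  have h1 : ∀ j ∈ Finset.Icc 1 a, l ^ a - l ^ (a - j) ≠ 0 := by
    intro j hj
    obtain ⟨hj1, hj2⟩ := Finset.mem_Icc.1 hj
    have h2 : l ^ (a - j) < l ^ a := Nat.pow_lt_pow_right hl.out.one_lt (by omega)
    omega
  constructor
  · rintro (h0 | ⟨j, hj, h0⟩)
    · exact Or.inl h0
    · rw [eval_pow, pow_eq_zero_iff (h1 j hj)] at h0
      exact Or.inr ⟨j, hj, h0⟩
  · rintro (h0 | ⟨j, hj, h0⟩)
    · exact Or.inl h0
    · refine Or.inr ⟨j, hj, ?_⟩
      rw [eval_pow, pow_eq_zero_iff (h1 j hj)]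
      exact h0

/-- the divisibility for the cyclotomic criterion -/
theorem dvd_pow_of {a : ℕ} {L L' : ℤ[X]} {A : ℕ → ℤ[X]}
    (h : L'.map (Int.castRingHom (ZMod l)) = L.map (Int.castRingHom (ZMod l)) ^ (l ^ a) *
      ∏ j ∈ Finset.Icc 1 a, (A j).map (Int.castRingHom (ZMod l)) ^ (l ^ a - l ^ (a - j))) :
    L'.map (Int.castRingHom (ZMod l)) ∣
      (L * ∏ j ∈ Finset.Icc 1 a, A j).map (Int.castRingHom (ZMod l)) ^ (l ^ a) := by
  rw [h, Polynomial.map_mul, mul_pow, Polynomial.map_prod, ← Finset.prod_pow]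
  apply mul_dvd_mul_left
  apply Finset.prod_dvd_prod_of_dvd
  intro j _
  exact pow_dvd_pow _ (Nat.sub_le _ _)

end Pool.Agent.T9h63.LG
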