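import Pool.Agent.T9h63.SC.Tr
import Pool.Agent.T9h63.KT.Cov

set_option autoImplicit false
set_option maxHeartbeats 1000000

/-!
Galois coverings whose group has `ℓ`-power order, and the zeta functions modulo `ℓ` of fibre products.
-/

namespace Pool.Agent.T9h63.LG

open Function Pool.Agent.W555.TC Pool.Agent.T9h63.KT Pool.Agent.T9h63.SC

/-- A Galois covering with a group `G` of order `ℓ ^ a`: the points `c` with `C' c` lie over the points `v`
with `C v`, if `ov c v`. -/
structure GalCov {V W : Type*} (l a : ℕ) (F : V → V) (F' : W → W) (C : V → Prop) (C' : W → Prop)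
    (ov : W → V → Prop) (G : Type*) [Group G] [MulAction G W] : Prop where
  card : Nat.card G = l ^ a
  maps : ∀ (g : G) (c : W), C' c → C' (g • c)
  frob : ∀ (g : G) (c : W), C' c → F' (g • c) = g • F' c
  stab : ∀ c, C' c → C' (F' c)
  inj : Function.Injective F'
  onto : ∀ v, C v → ∃ c, C' c ∧ ov c v
  ovF : ∀ c v, ov c v → ov (F' c) (F v)
  orbit : ∀ c v c', C' c → ov c v → C' c' → (ov c' v ↔ ∃ g : G, c' = g • c)

/-- the points above which the stabilisers have the order `ℓ ^ j` -/
def rm {V W : Type*} (l j : ℕ) (C' : W → Prop) (ov : W → V → Prop) (G : Type*) [Group G]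
    [MulAction G W] (v : V) : Prop :=
  ∃ c, C' c ∧ ov c v ∧ Nat.card (MulAction.stabilizer G c) = l ^ j

section gal

variable {V W : Type*} {l a : ℕ} [hl : Fact l.Prime] {F : V → V} {F' : W → W} {C : V → Prop}
  {C' : W → Prop} {ov : W → V → Prop} {G : Type*} [Group G] [MulAction G W]
  (H : GalCov l a F F' C C' ov G)

include H

omit hl in
lemma stab_eq {c c' : W} {v : V} (hc : C' c) (hv : ov c v) (hc' : C' c') (hv' : ov c' v) :
    Nat.card (MulAction.stabilizer G c) = Nat.card (MulAction.stabilizer G c') := by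
  obtain ⟨g, rfl⟩ := (H.orbit c v c' hc hv hc').1 hv'
  rw [MulAction.stabilizer_smul_eq_stabilizer_map_conj]
  exact Nat.card_congr
    ((MulAction.stabilizer G c).equivMapOfInjective _ (MulEquiv.injective _)).toEquiv

lemma finG : Finite G := by
  apply Nat.finite_of_card_ne_zero
  rw [H.card]
  exact pow_ne_zero _ hl.out.ne_zero

lemma stab_pow (c : W) : ∃ j ≤ a, Nat.card (MulAction.stabilizer G c) = l ^ j := by
  haveI := finG H
  have h1 : Nat.card (MulAction.stabilizer G c) ∣ l ^ a := by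
    rw [← H.card]
    exact Subgroup.card_subgroup_dvd_card _
  exact (Nat.dvd_prime_pow hl.out).1 h1

lemma exists_rm {v : V} (hv : C v) : ∃ j ≤ a, rm l j C' ov G v := by
  obtain ⟨c, hc, hcv⟩ := H.onto v hv
  obtain ⟨j, hj, h⟩ := stab_pow H c
  exact ⟨j, hj, c, hc, hcv, h⟩

lemma rm_le {v : V} {j : ℕ} (h : rm l j C' ov G v) : j ≤ a := by
  obtain ⟨c, hc, hcv, h1⟩ := h
  obtain ⟨i, hi, h2⟩ := stab_pow H c
  rw [h1] at h2
  rw [Nat.pow_right_injective hl.out.two_le h2]
  exact hi

lemma rm_unique {v : V} {i j : ℕ} (hi : rm l i C' ov G v) (hj : rm l j C' ov G v) : i = j := by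
  obtain ⟨c, hc, hcv, h1⟩ := hi
  obtain ⟨c', hc', hcv', h2⟩ := hj
  have h3 := stab_eq H hc hcv hc' hcv'
  rw [h1, h2] at h3
  exact Nat.pow_right_injective hl.out.two_le h3

omit hl in
lemma rm_F {v : V} {j : ℕ} (h : rm l j C' ov G v) : rm l j C' ov G (F v) := by
  obtain ⟨c, hc, hcv, h1⟩ := h
  refine ⟨F' c, H.stab c hc, H.ovF c v hcv, ?_⟩
  rw [← h1]
  congr 1
  have : MulAction.stabilizer G (F' c) = MulAction.stabilizer G c := by
    ext g
    rw [MulAction.mem_stabilizer_iff, MulAction.mem_stabilizer_iff, ← H.frob g c hc]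
    exact ⟨fun h => H.inj h, fun h => by rw [h]⟩
  rw [this]

lemma fibre_card {v : V} {j : ℕ} (h : rm l j C' ov G v) :
    {c | C' c ∧ ov c v}.ncard = l ^ (a - j) := by
  haveI := finG H
  have hj := rm_le H h
  obtain ⟨c, hc, hcv, h1⟩ := h
  have e : {c | C' c ∧ ov c v} = MulAction.orbit G c := by
    ext c'
    constructor
    · rintro ⟨h2, h3⟩
      obtain ⟨g, rfl⟩ := (H.orbit c v c' hc hcv h2).1 h3
      exact MulAction.mem_orbit c g
    · rintro ⟨g, rfl⟩
      have h2 := H.maps g c hc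
      exact ⟨h2, (H.orbit c v _ hc hcv h2).2 ⟨g, rfl⟩⟩
  rw [e]
  rw [← MulAction.index_stabilizer G c]
  have h2 := (MulAction.stabilizer G c).index_mul_card
  rw [h1, H.card, ← Nat.sub_add_cancel hj, pow_add] at h2
  exact Nat.eq_of_mul_eq_mul_right (pow_pos hl.out.pos j) h2

omit hl in
lemma iter_frob {c : W} (hc : C' c) (d : ℕ) : C' (F'^[d] c) ∧ ∀ g : G,
    F'^[d] (g • c) = g • F'^[d] c := by
  induction d with
  | zero => exact ⟨hc, fun g => rfl⟩
  | succ d ih =>
    refine ⟨?_, fun g => ?_⟩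
    · rw [Function.iterate_succ_apply']
      exact H.stab _ ih.1
    · rw [Function.iterate_succ_apply', Function.iterate_succ_apply', ih.2 g, H.frob g _ ih.1]

omit hl in
lemma iter_ov {c : W} {v : V} (hcv : ov c v) (d : ℕ) : ov (F'^[d] c) (F^[d] v) := by
  induction d with
  | zero => exact hcv
  | succ d ih =>
    rw [Function.iterate_succ_apply', Function.iterate_succ_apply']
    exact H.ovF _ _ ih

lemma periods {c : W} {v : V} (hc : C' c) (hcv : ov c v) {d : ℕ} (hd : IsPeriodicPt F d v) :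
    IsPeriodicPt F' (d * l ^ a) c := by
  haveI := finG H
  obtain ⟨h1, h2⟩ := iter_frob H hc d
  have h3 := iter_ov H hcv d
  rw [hd.eq] at h3
  obtain ⟨g, hg⟩ := (H.orbit c v _ hc hcv h1).1 h3
  have key : ∀ k : ℕ, F'^[d * k] c = g ^ k • c := by
    intro k
    induction k with
    | zero => simp
    | succ k ih =>
      rw [mul_add, mul_one, add_comm, Function.iterate_add_apply, ih, h2, hg, pow_succ, mul_smul]
  show F'^[d * l ^ a] c = c
  rw [key, ← H.card, pow_card_eq_one', one_smul]

end gal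

end Pool.Agent.T9h63.LG
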