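import Pool.Agent.T9h63.LG.Zeta
import Pool.Agent.T9h63.SC.Cov

set_option autoImplicit false
set_option maxHeartbeats 1000000

/-!
The `L`-function modulo `ℓ` of a fibration after a Galois covering of the base.
-/

namespace Pool.Agent.T9h63.LG

open Function Polynomial Pool.Agent.W555.TC Pool.Agent.T9h63.KT Pool.Agent.T9h63.SC

section resc

variable (l : ℕ) [hl : Fact l.Prime] (q : ℕ)

/-- the substitution `T ↦ q T` -/
noncomputable def rs : (PowerSeries (ZMod l))ˣ →* (PowerSeries (ZMod l))ˣ :=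
  Units.map (PowerSeries.rescale (q : ZMod l) : PowerSeries (ZMod l) →+* PowerSeries (ZMod l))

variable {l}

lemma Tr_rescale {c : ℕ → ℤ} {u : (PowerSeries (ZMod l))ˣ} (hu : Tr l c u) :
    Tr l (fun n => (q : ℤ) ^ n * c n) (rs l q u) := by
  obtain ⟨A, B, a, b, h1, h2, h3, h4, h5, h6, h7, rfl⟩ := hu
  have hLD : ∀ {f g : PowerSeries ℤ}, LD f g →
      LD (PowerSeries.rescale (q : ℤ) f) (PowerSeries.rescale (q : ℤ) g) := by
    intro f g h
    unfold LD at *
    have e1 : eul (PowerSeries.rescale (q : ℤ) f) = PowerSeries.rescale (q : ℤ) (eul f) := by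
      ext n
      simp only [eul, PowerSeries.coeff_mk, PowerSeries.coeff_rescale]
      ring
    rw [e1, h, map_mul]
  have hz : ∀ (f : PowerSeries ℤ), PowerSeries.coeff 0 (PowerSeries.rescale (q : ℤ) f)
      = PowerSeries.coeff 0 f := by
    intro f
    rw [PowerSeries.coeff_rescale, pow_zero, one_mul]
  have hU : ∀ (f : PowerSeries ℤ), PowerSeries.coeff 0 f = 1 →
      U (red l (PowerSeries.rescale (q : ℤ) f)) = rs l q (U (red l f)) := by
    intro f hf
    apply Units.ext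
    rw [U_coe (unit_red (by rw [hz, hf]))]
    show _ = PowerSeries.rescale (q : ZMod l) (U (red l f) : PowerSeries (ZMod l))
    rw [U_coe (unit_red hf)]
    ext n
    rw [red, PowerSeries.coeff_map, PowerSeries.coeff_rescale, PowerSeries.coeff_rescale,
      PowerSeries.coeff_map, map_mul, map_pow]
    simp
  refine ⟨_, _, _, _, hLD h1, hLD h2, ?_, ?_, ?_, ?_, fun n hn => ?_, ?_⟩
  · rw [hz, h3]
  · rw [hz, h4]
  · rw [hz, h5]
  · rw [hz, h6]
  · show (q : ℤ) ^ n * c n = _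
    rw [PowerSeries.coeff_rescale, PowerSeries.coeff_rescale, h7 n hn]
    ring
  · rw [map_mul, map_inv, hU A h3, hU B h4]

lemma Tr_poly' {P : ℤ[X]} {t : ℕ → ℤ} (hP : LogCoeffs P (fun n => - t n)) :
    Tr l t (up l P) := by
  refine ⟨(P : PowerSeries ℤ), 1, _, 0, hP.toLD, LD_one, coeff_coe hP.1, by simp, coeff_zero_ser _,
    map_zero _, fun n hn => ?_, ?_⟩
  · rw [coeff_ser hn, map_zero]
    ring
  · rw [map_one, U_one, inv_one, mul_one]
    rfl

end resc

section cong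

variable {V W X D : Type*} {l a : ℕ} [hl : Fact l.Prime] {F : V → V} {F' : W → W} {C : V → Prop}
  {C' : W → Prop} {ov : W → V → Prop} {G : Type*} [Group G] [MulAction G W]

lemma grp {A : Type*} [CommGroup A] (b : A) {m n : ℕ} (h : n ≤ m) :
    b ^ m * (b⁻¹) ^ (m - n) = b ^ n := by
  rw [inv_pow, mul_inv_eq_iff_eq_mul, ← pow_add, Nat.add_sub_cancel' h]

lemma prod_id {A : Type*} [CommGroup A] (l a : ℕ) (B : ℕ → A) (hl : 0 < l) :
    ∏ j ∈ Finset.range (a + 1), B j ^ (l ^ (a - j)) = (∏ j ∈ Finset.range (a + 1), B j) ^ (l ^ a) *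
      ∏ j ∈ Finset.Icc 1 a, (B j)⁻¹ ^ (l ^ a - l ^ (a - j)) := by
  have e4 : Finset.Ico (0 + 1) (a + 1) = Finset.Icc 1 a := by
    ext j
    simp only [Finset.mem_Ico, Finset.mem_Icc]
    omega
  have e6 : ∀ f : ℕ → A, ∏ j ∈ Finset.range (a + 1), f j = f 0 * ∏ j ∈ Finset.Icc 1 a, f j := by
    intro f
    rw [Finset.range_eq_Ico, Finset.prod_eq_prod_Ico_succ_bot (Nat.succ_pos a), e4]
  rw [e6, e6, mul_pow, mul_assoc, Nat.sub_zero, ← Finset.prod_pow, ← Finset.prod_mul_distrib]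
  congr 1
  apply Finset.prod_congr rfl
  intro j _
  exact (grp (B j) (Nat.pow_le_pow_right hl (Nat.sub_le a j))).symm

/-- **The congruence for the units.** -/
theorem up_cong (H : GalCov l a F F' C C' ov G) (hCF : ∀ v, C v → C (F v))
    (hfV : ∀ n : ℕ, 0 < n → {z | IsPeriodicPt F n z}.Finite)
    (hfW : ∀ n : ℕ, 0 < n → {z | IsPeriodicPt F' n z}.Finite)
    {Φ : X → X} {s : X → Prop} {pr : X → V} (hs : ∀ y, s y → s (Φ y))
    (hpr : ∀ y, pr (Φ y) = F (pr y)) (hC : ∀ y, s y → C (pr y))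
    (hfin : ∀ n : ℕ, 0 < n → {z | IsPeriodicPt Φ n z}.Finite)
    {Φd : D → D} {sd : D → Prop} {prd : D → V} (hsd : ∀ y, sd y → sd (Φd y))
    (hprd : ∀ y, prd (Φd y) = F (prd y)) (hCd : ∀ y, sd y → C (prd y))
    (hfind : ∀ n : ℕ, 0 < n → {z | IsPeriodicPt Φd n z}.Finite)
    (q : ℕ) {L L' : ℤ[X]} {A : ℕ → ℤ[X]} {t t' : ℕ → ℤ} {tA : ℕ → ℕ → ℤ}
    (hL : LogCoeffs L (fun n => - t n)) (hL' : LogCoeffs L' (fun n => - t' n))
    (hA : ∀ j, 1 ≤ j → j ≤ a → LogCoeffs (A j) (fun n => - tA j n))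
    (ht : ∀ n, 0 < n → t n = cnt Φ s n - cnt F C n - (q : ℤ) ^ n * cnt Φd sd n)
    (ht' : ∀ n, 0 < n → t' n = cnt (Prod.map Φ F') (fp C' ov s pr) n
      - cnt (Prod.map F F') (fp C' ov C id) n
      - (q : ℤ) ^ n * cnt (Prod.map Φd F') (fp C' ov sd prd) n)
    (htA : ∀ j, 1 ≤ j → j ≤ a → ∀ n, 0 < n → tA j n = cnt F (sj l j C' ov G C id) n
      + (q : ℤ) ^ n * cnt Φd (sj l j C' ov G sd prd) n - cnt Φ (sj l j C' ov G s pr) n) :
    up l L' = up l L ^ (l ^ a) * ∏ j ∈ Finset.Icc 1 a, up l (A j) ^ (l ^ a - l ^ (a - j)) := by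
  set B : ℕ → (PowerSeries (ZMod l))ˣ := fun j => uz l Φ (sj l j C' ov G s pr)
    * (uz l F (sj l j C' ov G C id))⁻¹ * (rs l q (uz l Φd (sj l j C' ov G sd prd)))⁻¹ with hB
  have e1 : up l L = ∏ j ∈ Finset.range (a + 1), B j := by
    have h1 := Tr_unique (Tr_congr (Tr_poly' hL) (fun n hn => (ht n hn).symm))
      (Tr_congr (Tr_add (Tr_add (Tr_zi (l := l) hfin hs) (Tr_neg (Tr_zi (l := l) hfV hCF)))
        (Tr_neg (Tr_rescale q (Tr_zi (l := l) hfind hsd)))) (fun n _ => by ring))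
    rw [h1]
    show uz l Φ s * (uz l F C)⁻¹ * (rs l q (uz l Φd sd))⁻¹ = _
    rw [uz_base H hs hpr hC hfin, uz_base H hsd hprd hCd hfind,
      uz_base H (pr := id) hCF (fun _ => rfl) (fun _ h => h) hfV, map_prod,
      ← Finset.prod_inv_distrib, ← Finset.prod_inv_distrib, ← Finset.prod_mul_distrib,
      ← Finset.prod_mul_distrib]
  have e2 : up l L' = ∏ j ∈ Finset.range (a + 1), B j ^ (l ^ (a - j)) := by
    have h1 := Tr_unique (Tr_congr (Tr_poly' hL') (fun n hn => (ht' n hn).symm))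
      (Tr_congr (Tr_add (Tr_add (Tr_zi (l := l) (fin_prod hfW hfin)
        (fun z h => fp_stable H hs hpr z h)) (Tr_neg (Tr_zi (l := l) (fin_prod hfW hfV)
        (fun z h => fp_stable H (pr := id) hCF (fun _ => rfl) z h))))
        (Tr_neg (Tr_rescale q (Tr_zi (l := l) (fin_prod hfW hfind)
        (fun z h => fp_stable H hsd hprd z h))))) (fun n _ => by ring))
    rw [h1]
    show uz l (Prod.map Φ F') (fp C' ov s pr) * (uz l (Prod.map F F') (fp C' ov C id))⁻¹ *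
      (rs l q (uz l (Prod.map Φd F') (fp C' ov sd prd)))⁻¹ = _
    rw [uz_fp H hfW hs hpr hC hfin, uz_fp H hfW hsd hprd hCd hfind,
      uz_fp H hfW (pr := id) hCF (fun _ => rfl) (fun _ h => h) hfV, map_prod,
      ← Finset.prod_inv_distrib, ← Finset.prod_inv_distrib, ← Finset.prod_mul_distrib,
      ← Finset.prod_mul_distrib]
    apply Finset.prod_congr rfl
    intro j _
    rw [hB, map_pow]
    simp only [mul_pow, inv_pow]
  have e3 : ∀ j ∈ Finset.Icc 1 a, up l (A j) = (B j)⁻¹ := by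
    intro j hj
    obtain ⟨hj1, hj2⟩ := Finset.mem_Icc.1 hj
    have h1 := Tr_unique (Tr_congr (Tr_poly' (hA j hj1 hj2))
      (fun n hn => (htA j hj1 hj2 n hn).symm))
      (Tr_congr (Tr_add (Tr_add (Tr_zi (l := l) hfV (s := sj l j C' ov G C id)
        (fun y h => sj_stable H (pr := id) hCF (fun _ => rfl) j y h))
        (Tr_rescale q (Tr_zi (l := l) hfind (fun y h => sj_stable H hsd hprd j y h))))
        (Tr_neg (Tr_zi (l := l) hfin (fun y h => sj_stable H hs hpr j y h))))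
        (fun n _ => by ring))
    rw [h1]
    show uz l F (sj l j C' ov G C id) * rs l q (uz l Φd (sj l j C' ov G sd prd)) *
      (uz l Φ (sj l j C' ov G s pr))⁻¹ = _
    rw [hB]
    simp only [mul_inv, inv_inv]
    rw [mul_comm, mul_assoc]
  have e5 : ∏ j ∈ Finset.Icc 1 a, up l (A j) ^ (l ^ a - l ^ (a - j))
      = ∏ j ∈ Finset.Icc 1 a, (B j)⁻¹ ^ (l ^ a - l ^ (a - j)) :=
    Finset.prod_congr rfl (fun j hj => by rw [e3 j hj])
  rw [e1, e2, e5]
  exact prod_id l a B hl.out.pos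

/-- **The congruence.** -/
theorem cong_of_up {L L' : ℤ[X]} {A : ℕ → ℤ[X]} (hL : L.coeff 0 = 1) (hL' : L'.coeff 0 = 1)
    (hA : ∀ j, 1 ≤ j → j ≤ a → (A j).coeff 0 = 1)
    (h : up l L' = up l L ^ (l ^ a) * ∏ j ∈ Finset.Icc 1 a, up l (A j) ^ (l ^ a - l ^ (a - j))) :
    L'.map (Int.castRingHom (ZMod l)) = L.map (Int.castRingHom (ZMod l)) ^ (l ^ a) *
      ∏ j ∈ Finset.Icc 1 a, (A j).map (Int.castRingHom (ZMod l)) ^ (l ^ a - l ^ (a - j)) := by
  have h1 := congrArg (fun u : (PowerSeries (ZMod l))ˣ => (u : PowerSeries (ZMod l))) h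
  have hup : ∀ P : ℤ[X], P.coeff 0 = 1 →
      ((up l P : (PowerSeries (ZMod l))ˣ) : PowerSeries (ZMod l))
        = ((P.map (Int.castRingHom (ZMod l)) : (ZMod l)[X]) : PowerSeries (ZMod l)) := by
    intro P hP
    unfold up
    rw [U_coe (unit_red (coeff_coe hP)), red_coe]
  apply Polynomial.coe_injective
  rw [← hup L' hL', Polynomial.coe_mul, Polynomial.coe_pow, ← hup L hL]
  have h2 : ((∏ j ∈ Finset.Icc 1 a, (A j).map (Int.castRingHom (ZMod l)) ^ (l ^ a - l ^ (a - j))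
      : (ZMod l)[X]) : PowerSeries (ZMod l)) = ∏ j ∈ Finset.Icc 1 a,
        ((up l (A j) : (PowerSeries (ZMod l))ˣ) : PowerSeries (ZMod l)) ^ (l ^ a - l ^ (a - j)) := by
    rw [← Polynomial.coeToPowerSeries.ringHom_apply, map_prod]
    apply Finset.prod_congr rfl
    intro j hj
    obtain ⟨hj1, hj2⟩ := Finset.mem_Icc.1 hj
    rw [map_pow, Polynomial.coeToPowerSeries.ringHom_apply, hup _ (hA j hj1 hj2)]
  rw [h2]
  simp only [Units.val_mul, Units.val_pow_eq_pow_val, Units.coe_prod] at h1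
  exact h1

end cong

end Pool.Agent.T9h63.LG
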