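import Pool.Agent.T9h63.LG.Gal

set_option autoImplicit false
set_option maxHeartbeats 1000000

/-!
The zeta functions modulo `ℓ` of fibre products with Galois coverings.
-/

namespace Pool.Agent.T9h63.LG

open Function Pool.Agent.W555.TC Pool.Agent.T9h63.KT Pool.Agent.T9h63.SC

section zeta

variable {V W Y : Type*} {l a : ℕ} [hl : Fact l.Prime] {F : V → V} {F' : W → W} {C : V → Prop}
  {C' : W → Prop} {ov : W → V → Prop} {G : Type*} [Group G] [MulAction G W]
  (H : GalCov l a F F' C C' ov G) (hfW : ∀ n : ℕ, 0 < n → {z | IsPeriodicPt F' n z}.Finite)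
  {Φ : Y → Y} {s : Y → Prop} {pr : Y → V} (hs : ∀ y, s y → s (Φ y))
  (hpr : ∀ y, pr (Φ y) = F (pr y)) (hC : ∀ y, s y → C (pr y))
  (hfin : ∀ n : ℕ, 0 < n → {z | IsPeriodicPt Φ n z}.Finite)

/-- the fibre product -/
def fp (C' : W → Prop) (ov : W → V → Prop) (s : Y → Prop) (pr : Y → V) (z : Y × W) : Prop :=
  s z.1 ∧ C' z.2 ∧ ov z.2 (pr z.1)

/-- the part above the points with stabilisers of order `ℓ ^ j` -/
def sj (l j : ℕ) (C' : W → Prop) (ov : W → V → Prop) (G : Type*) [Group G] [MulAction G W]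
    (s : Y → Prop) (pr : Y → V) (y : Y) : Prop := s y ∧ rm l j C' ov G (pr y)

/-- the same for the fibre product -/
def fj (l j : ℕ) (C' : W → Prop) (ov : W → V → Prop) (G : Type*) [Group G] [MulAction G W]
    (s : Y → Prop) (pr : Y → V) (z : Y × W) : Prop :=
  fp C' ov s pr z ∧ rm l j C' ov G (pr z.1)

include H hs hpr in
omit hl in
lemma sj_stable (j : ℕ) (y : Y) (h : sj l j C' ov G s pr y) : sj l j C' ov G s pr (Φ y) := by
  refine ⟨hs y h.1, ?_⟩
  rw [hpr]
  exact rm_F H h.2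

include H hs hpr in
omit hl in
lemma fp_stable (z : Y × W) (h : fp C' ov s pr z) : fp C' ov s pr (Prod.map Φ F' z) := by
  refine ⟨hs _ h.1, H.stab _ h.2.1, ?_⟩
  show ov (F' z.2) (pr (Φ z.1))
  rw [hpr]
  exact H.ovF _ _ h.2.2

include H hs hpr in
omit hl in
lemma fj_stable (j : ℕ) (z : Y × W) (h : fj l j C' ov G s pr z) :
    fj l j C' ov G s pr (Prod.map Φ F' z) := by
  refine ⟨fp_stable H hs hpr z h.1, ?_⟩
  show rm l j C' ov G (pr (Φ z.1))
  rw [hpr]
  exact rm_F H h.2

include hfW hfin in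
omit hl [Group G] [MulAction G W] in
lemma fin_prod (n : ℕ) (hn : 0 < n) : {z | IsPeriodicPt (Prod.map Φ F') n z}.Finite := by
  have h1 : {z : Y × W | IsPeriodicPt (Prod.map Φ F') n z}
      ⊆ {z | IsPeriodicPt Φ n z} ×ˢ {z | IsPeriodicPt F' n z} := by
    intro z hz
    exact isPeriodicPt_prodMap _ |>.1 hz
  exact ((hfin n hn).prod (hfW n hn)).subset h1

include H hs hpr hC hfin in
lemma zi_base : zi Φ s = ∏ j ∈ Finset.range (a + 1), zi Φ (sj l j C' ov G s pr) := by
  apply zi_union hfin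
  · intro j _ y h
    exact sj_stable H hs hpr j y h
  · intro i _ j _ hij y h1 h2
    exact hij (rm_unique H h1.2 h2.2)
  · intro y
    constructor
    · intro h
      obtain ⟨j, hj, h1⟩ := exists_rm H (hC y h)
      exact ⟨j, Finset.mem_range.2 (by omega), h, h1⟩
    · rintro ⟨j, _, h⟩
      exact h.1

include H hfW hs hpr hC hfin in
lemma zi_fp : zi (Prod.map Φ F') (fp C' ov s pr)
    = ∏ j ∈ Finset.range (a + 1), zi (Prod.map Φ F') (fj l j C' ov G s pr) := by
  apply zi_union (fin_prod hfW hfin)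
  · intro j _ y h
    exact fj_stable H hs hpr j y h
  · intro i _ j _ hij y h1 h2
    exact hij (rm_unique H h1.2 h2.2)
  · intro y
    constructor
    · intro h
      obtain ⟨j, hj, h1⟩ := exists_rm H (hC y.1 h.1)
      exact ⟨j, Finset.mem_range.2 (by omega), h, h1⟩
    · rintro ⟨j, _, h⟩
      exact h.1

include H hfW hs hpr hfin in
lemma red_fj (j : ℕ) : red l (zi (Prod.map Φ F') (fj l j C' ov G s pr))
    = red l (zi Φ (sj l j C' ov G s pr)) ^ (l ^ (a - j)) := by
  apply red_cover Φ (Prod.map Φ F') Prod.fst (fun _ => rfl) hfin (fin_prod hfW hfin) _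
    (sj_stable H hs hpr j) _ (fj_stable H hs hpr j) (fun p h => ⟨h.1.1, h.2⟩) l a
  · intro z d hd h hp
    rw [isPeriodicPt_prodMap]
    refine ⟨hp.mul_const _, ?_⟩
    have h1 : IsPeriodicPt F d (pr z.1) := by
      have h2 : ∀ (k : ℕ) (y : Y), pr (Φ^[k] y) = F^[k] (pr y) := by
        intro k
        induction k with
        | zero => intro y; rfl
        | succ k ih =>
          intro y
          rw [iterate_succ_apply', iterate_succ_apply', hpr, ih]
      show F^[d] (pr z.1) = pr z.1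
      rw [← h2, hp.eq]
    exact periods H h.1.2.1 h.1.2.2 h1
  · intro y _ hy
    have e : {z : Y × W | z.1 = y ∧ fj l j C' ov G s pr z}
        = (fun c => (y, c)) '' {c | C' c ∧ ov c (pr y)} := by
      ext z
      constructor
      · rintro ⟨rfl, h⟩
        exact ⟨z.2, ⟨h.1.2.1, h.1.2.2⟩, rfl⟩
      · rintro ⟨c, hc, rfl⟩
        exact ⟨rfl, ⟨hy.1, hc.1, hc.2⟩, hy.2⟩
    rw [e, Set.ncard_image_of_injective _ (fun x y hxy => (Prod.mk.inj hxy).2)]
    exact fibre_card H hy.2

/-- the unit of an inverse zeta function -/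
noncomputable def uz (l : ℕ) [Fact l.Prime] {Y : Type*} (Φ : Y → Y) (s : Y → Prop) :
    (PowerSeries (ZMod l))ˣ := U (red l (zi Φ s))

lemma isUnit_uz {Y : Type*} (Φ : Y → Y) (s : Y → Prop) : IsUnit (red l (zi Φ s)) :=
  unit_red (coeff_zero_zi _)

include H hs hpr hC hfin in
theorem uz_base : uz l Φ s = ∏ j ∈ Finset.range (a + 1), uz l Φ (sj l j C' ov G s pr) := by
  unfold uz
  rw [zi_base H hs hpr hC hfin, map_prod, U_prod]
  intro i _
  exact isUnit_uz _ _

include H hfW hs hpr hC hfin in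
theorem uz_fp : uz l (Prod.map Φ F') (fp C' ov s pr)
    = ∏ j ∈ Finset.range (a + 1), uz l Φ (sj l j C' ov G s pr) ^ (l ^ (a - j)) := by
  unfold uz
  rw [zi_fp H hfW hs hpr hC hfin, map_prod, U_prod _ _ (fun i _ => isUnit_uz _ _)]
  apply Finset.prod_congr rfl
  intro j _
  rw [red_fj H hfW hs hpr hfin j, U_pow (isUnit_uz _ _)]

end zeta

end Pool.Agent.T9h63.LG
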